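import Pool.Agent.H343.QF.StQ

set_option autoImplicit false
set_option linter.unusedSectionVars false

/-! # MP_9a852a_al, Q6 : powers of `a` in the quotient -/

namespace Pool.Agent.H284.QF

open Pool.Agent.TH68 Pool.Agent.Helper97.Hyp Pool.Agent.H343.AN Pool.Agent.H343.QF

theorem q6 (h1 : S_q1) (h2 : S_q2) : S_q6 := by
  intro Γ _ W 𝒜 _ Y R hρ a hL hk W' hW' k
  have hd : dist (prj W W' (pt W 1)) (prj W W' (pt W (a ^ k))) =
      (W'.ℓ ((a : Γ ⧸ R.N) ^ k) : ℝ) := by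
    have e : ((1 : Γ) : Γ ⧸ R.N)⁻¹ * ((a ^ k : Γ) : Γ ⧸ R.N) = (a : Γ ⧸ R.N) ^ k := by
      simp
    rw [dist_def, ← e]
    rfl
  have hkk : dist (pt W 1) (pt W (a ^ k)) = (W.ℓ (a ^ k) : ℝ) := by
    rw [dist_def, out_pt, out_pt, inv_one, one_mul]
  obtain ⟨n, hn, hnd⟩ := exists_smul hW' (pt W 1) (pt W (a ^ k))
  by_cases hn1 : n = 1
  · rw [hn1, one_smul, hd, hkk] at hnd
    have h3 : W.ℓ (a ^ k) = W'.ℓ ((a : Γ ⧸ R.N) ^ k) := by exact_mod_cast hnd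
    rw [← h3]
    exact hk k
  · exfalso
    -- the point `h = n a^k` is reduced
    have hred : Red R.N (pt W 1) (n • pt W (a ^ k)) := by
      rw [red_iff hW', prj_smul hn, hnd]
    have hinv : n⁻¹ ≠ 1 := inv_ne_one.mpr hn1
    obtain ⟨A, r, -, -, -, h3⟩ := h1 Y R (R.N.inv_mem hn) hinv (n • pt W (a ^ k))
    rw [inv_smul_smul] at h3
    have h4 := h2 Y R hρ A hred
    have h5 := hL A 1 0 k
    rw [zpow_zero, mul_one, one_mul] at h5
    have h6 := pd_tri (Y.Sne A) (n • pt W (a ^ k)) (pt W 1) (pt W (a ^ k))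
    rw [pd_symm (Y.Sne A) (n • pt W (a ^ k)) (pt W 1)] at h6
    have h7 := Y.hδ
    have h8 := Y.hθ
    nlinarith

end Pool.Agent.H284.QF
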